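import Mathlib

/-!
# A finite ordered set with the fixed point property whose iterated clique graphs do not collapse

The ordered set is the face poset of the hemicube (the cube modulo the antipodal map), whose order
complex triangulates the projective plane.  It has 13 elements: 4 vertices, 6 edges, 3 squares.

* The fixed point property is proved by an exhaustive search, carried out by the kernel.
* The iterated clique graphs never collapse, because a nontrivial `ZMod 2`-valued 1-cocycle of a
  finite graph induces a nontrivial `ZMod 2`-valued 1-cocycle of its clique graph.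
-/

namespace Pool.Agent.Results.MP_c7efa6_co.NoCollapse

/-- The comparability graph of an ordered set: two distinct elements are adjacent iff they are
comparable. -/
def comparabilityGraph (P : Type) [PartialOrder P] : SimpleGraph P where
  Adj x y := x ≠ y ∧ (x ≤ y ∨ y ≤ x)
  symm := ⟨fun _ _ h => ⟨h.1.symm, h.2.symm⟩⟩
  loopless := ⟨fun _ h => h.1 rfl⟩

/-- The clique graph of `G`: its vertices are the maximal (under inclusion) cliques of `G`, and two
distinct maximal cliques are adjacent iff they share at least one vertex. -/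
def cliqueGraph {V : Type} (G : SimpleGraph V) :
    SimpleGraph {s : Set V // Maximal G.IsClique s} where
  Adj s t := s ≠ t ∧ ((s : Set V) ∩ (t : Set V)).Nonempty
  symm := ⟨fun s t h => ⟨h.1.symm, by rw [Set.inter_comm]; exact h.2⟩⟩
  loopless := ⟨fun _ h => h.1 rfl⟩

/-- The iterated clique graphs `K^n(G)`, as a vertex type together with a graph on it. -/
def iterCliqueGraph (G : Σ V : Type, SimpleGraph V) : ℕ → Σ V : Type, SimpleGraph V
  | 0 => G
  | n + 1 => ⟨_, cliqueGraph (iterCliqueGraph G n).2⟩

/-! ### The invariant -/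

/-- `G` carries a `ZMod 2`-valued 1-cocycle (on its clique complex) which is not a coboundary. -/
def Twisted {V : Type} (G : SimpleGraph V) : Prop :=
  ∃ c : V → V → ZMod 2,
    (∀ x y z, (x = y ∨ G.Adj x y) → (y = z ∨ G.Adj y z) → (x = z ∨ G.Adj x z) →
      c x y + c y z = c x z) ∧
    ¬ ∃ g : V → ZMod 2, ∀ x y, G.Adj x y → c x y = g x - g y

lemma exists_maximal_clique {V : Type} [Finite V] (G : SimpleGraph V) {s : Set V}
    (hs : G.IsClique s) : ∃ t : {s : Set V // Maximal G.IsClique s}, s ⊆ t.1 := by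
  obtain ⟨t, hst, ht⟩ := Finite.exists_le_maximal (p := fun s : Set V => G.IsClique s) hs
  exact ⟨⟨t, ht⟩, hst⟩

lemma Twisted.cliqueGraph {V : Type} [Finite V] {G : SimpleGraph V} (h : Twisted G) :
    Twisted (NoCollapse.cliqueGraph G) := by
  classical
  obtain ⟨c, hc, hn⟩ := h
  -- every maximal clique is nonempty
  have hV : Nonempty V := by
    by_contra hV
    rw [not_nonempty_iff] at hV
    exact hn ⟨fun _ => 0, fun x => (hV.false x).elim⟩
  have hne : ∀ Q : {s : Set V // Maximal G.IsClique s}, ∃ x : V, x ∈ Q.1 := by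
    intro Q
    by_contra hQ
    push Not at hQ
    obtain ⟨v⟩ := hV
    have h1 : Q.1 ≤ ({v} : Set V) := fun x hx => absurd hx (hQ x)
    have h2 := Q.2.2 (y := {v}) (by simp [SimpleGraph.IsClique]) h1
    exact hQ v (h2 rfl)
  choose r hr using hne
  have hadj : ∀ Q : {s : Set V // Maximal G.IsClique s}, ∀ x ∈ Q.1, ∀ y ∈ Q.1,
      x = y ∨ G.Adj x y := by
    intro Q x hx y hy
    by_cases hxy : x = y
    · exact Or.inl hxy
    · exact Or.inr (Q.2.1 hx hy hxy)
  have hc0 : ∀ x, c x x = 0 := by
    intro x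
    have := hc x x x (Or.inl rfl) (Or.inl rfl) (Or.inl rfl)
    simpa using this
  have hcs : ∀ x y, (x = y ∨ G.Adj x y) → c x y + c y x = 0 := by
    intro x y hxy
    have h2 : y = x ∨ G.Adj y x := by
      rcases hxy with h | h
      · exact Or.inl h.symm
      · exact Or.inr h.symm
    rw [hc x y x hxy h2 (Or.inl rfl), hc0]
  -- the cocycle on the clique graph
  let c' : {s : Set V // Maximal G.IsClique s} → {s : Set V // Maximal G.IsClique s} → ZMod 2 :=
    fun Q R => if h : (Q.1 ∩ R.1).Nonempty then c (r Q) h.some + c h.some (r R) else 0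
  have hc' : ∀ Q R : {s : Set V // Maximal G.IsClique s}, ∀ x, x ∈ Q.1 → x ∈ R.1 →
      c' Q R = c (r Q) x + c x (r R) := by
    intro Q R x hxQ hxR
    have hex : (Q.1 ∩ R.1).Nonempty := ⟨x, hxQ, hxR⟩
    have hy := hex.some_mem
    simp only [c', dif_pos hex]
    set y := hex.some
    have e1 : c (r Q) x + c x y = c (r Q) y :=
      hc _ _ _ (hadj Q _ (hr Q) _ hxQ) (hadj Q _ hxQ _ hy.1) (hadj Q _ (hr Q) _ hy.1)
    have e2 : c x y + c y (r R) = c x (r R) :=
      hc _ _ _ (hadj R _ hxR _ hy.2) (hadj R _ hy.2 _ (hr R)) (hadj R _ hxR _ (hr R))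
    rw [← e1, ← e2]
    ring
  have hshare : ∀ Q R : {s : Set V // Maximal G.IsClique s},
      (Q = R ∨ (NoCollapse.cliqueGraph G).Adj Q R) → ∃ x, x ∈ Q.1 ∧ x ∈ R.1 := by
    rintro Q R (h | h)
    · exact ⟨r Q, hr Q, h ▸ hr Q⟩
    · obtain ⟨x, hx⟩ := h.2
      exact ⟨x, hx.1, hx.2⟩
  refine ⟨c', ?_, ?_⟩
  · intro Q R S hQR hRS hQS
    obtain ⟨x, hx1, hx2⟩ := hshare Q R hQR
    obtain ⟨y, hy2, hy3⟩ := hshare R S hRS
    obtain ⟨z, hz1, hz3⟩ := hshare Q S hQS
    rw [hc' Q R x hx1 hx2, hc' R S y hy2 hy3, hc' Q S z hz1 hz3]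
    have e1 : c (r Q) z + c z x = c (r Q) x :=
      hc _ _ _ (hadj Q _ (hr Q) _ hz1) (hadj Q _ hz1 _ hx1) (hadj Q _ (hr Q) _ hx1)
    have e2 : c x (r R) + c (r R) y = c x y :=
      hc _ _ _ (hadj R _ hx2 _ (hr R)) (hadj R _ (hr R) _ hy2) (hadj R _ hx2 _ hy2)
    have e3 : c z y + c y (r S) = c z (r S) :=
      hc _ _ _ (hadj S _ hz3 _ hy3) (hadj S _ hy3 _ (hr S)) (hadj S _ hz3 _ (hr S))
    have e4 : c z x + c x y = c z y :=
      hc _ _ _ (hadj Q _ hz1 _ hx1) (hadj R _ hx2 _ hy2) (hadj S _ hz3 _ hy3)
    calc c (r Q) x + c x (r R) + (c (r R) y + c y (r S))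
        = c (r Q) x + (c x (r R) + c (r R) y) + c y (r S) := by ring
      _ = (c (r Q) z + c z x) + c x y + c y (r S) := by rw [e2, e1]
      _ = c (r Q) z + ((c z x + c x y) + c y (r S)) := by ring
      _ = c (r Q) z + c z (r S) := by rw [e4, e3]
  · rintro ⟨h, hh⟩
    apply hn
    have hcl : ∀ x : V, ∃ Q : {s : Set V // Maximal G.IsClique s}, x ∈ Q.1 := by
      intro x
      obtain ⟨Q, hQ⟩ := exists_maximal_clique G (s := {x}) (by simp [SimpleGraph.IsClique])
      exact ⟨Q, hQ rfl⟩
    choose q hq using hcl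
    have key : ∀ x : V, ∀ Q : {s : Set V // Maximal G.IsClique s}, x ∈ Q.1 →
        c x (r (q x)) + h (q x) = c x (r Q) + h Q := by
      intro x Q hx
      by_cases hQ : Q = q x
      · rw [hQ]
      · have h1 := hh Q (q x) ⟨hQ, ⟨x, hx, hq x⟩⟩
        rw [hc' Q (q x) x hx (hq x)] at h1
        have h2 := hcs x (r Q) (hadj Q _ hx _ (hr Q))
        linear_combination h1 - h2
    refine ⟨fun x => c x (r (q x)) + h (q x), ?_⟩
    intro x y hxy
    obtain ⟨Q, hQ⟩ := exists_maximal_clique G (s := {x, y}) (by
      intro a ha b hb hab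
      rcases ha with rfl | ha <;> rcases hb with rfl | hb
      · exact absurd rfl hab
      · rw [Set.mem_singleton_iff] at hb; subst hb; exact hxy
      · rw [Set.mem_singleton_iff] at ha; subst ha; exact hxy.symm
      · rw [Set.mem_singleton_iff] at ha hb; subst ha; subst hb; exact absurd rfl hab)
    have hx : x ∈ Q.1 := hQ (by simp)
    have hy : y ∈ Q.1 := hQ (by simp)
    simp only
    rw [key x Q hx, key y Q hy]
    have e1 : c x (r Q) + c (r Q) y = c x y :=
      hc _ _ _ (hadj Q _ hx _ (hr Q)) (hadj Q _ (hr Q) _ hy) (Or.inr hxy)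
    have h2 := hcs y (r Q) (hadj Q _ hy _ (hr Q))
    linear_combination h2 - e1

lemma Twisted.two_le {V : Type} [Finite V] {G : SimpleGraph V} (h : Twisted G) :
    2 ≤ Nat.card V := by
  obtain ⟨c, -, hn⟩ := h
  by_contra hcard
  have hsub : Subsingleton V := by
    rw [← not_nontrivial_iff_subsingleton]
    intro hV
    exact hcard (Finite.one_lt_card)
  exact hn ⟨fun _ => 0, fun x y hxy => absurd (Subsingleton.elim x y) hxy.ne⟩

lemma iter_twisted (G : Σ V : Type, SimpleGraph V) (hf : Finite G.1) (hG : Twisted G.2) (n : ℕ) :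
    Finite (iterCliqueGraph G n).1 ∧ Twisted (iterCliqueGraph G n).2 := by
  induction n with
  | zero => exact ⟨hf, hG⟩
  | succ n ih =>
    obtain ⟨h1, h2⟩ := ih
    refine ⟨?_, h2.cliqueGraph⟩
    change Finite {s : Set (iterCliqueGraph G n).1 // Maximal (iterCliqueGraph G n).2.IsClique s}
    infer_instance

/-! ### The ordered set -/

/-- Bit `b` of entry `a` says whether `a ≤ b`. -/
def upm : List ℕ :=
  [7473, 7762, 7844, 7624, 3088, 5152, 5184, 3200, 6400, 6656, 1024, 2048, 4096]

/-- Bit `a` of entry `b` says whether `a ≤ b`. -/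
def dnm : List ℕ := [1, 2, 4, 8, 19, 37, 74, 140, 265, 518, 1279, 2975, 4975]

/-- The cocycle: bit `b` of entry `a` is its value on `(a, b)`. -/
def cm : List ℕ := [0, 4096, 2560, 6400, 0, 0, 4096, 2048, 8, 4100, 0, 140, 586]

def leB (a b : ℕ) : Bool := Nat.testBit (upm.getD a 0) b

/-- The 13-element ordered set. -/
@[ext] structure HC where
  idx : Fin 13

/-- `HC` has the elements of `Fin 13`. -/
def hcEquiv : HC ≃ Fin 13 where
  toFun := HC.idx
  invFun := HC.mk
  left_inv _ := rfl
  right_inv _ := rfl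

noncomputable instance : Fintype HC := Fintype.ofEquiv _ hcEquiv.symm
instance : Nonempty HC := ⟨⟨0⟩⟩

lemma leB_refl : ∀ a : Fin 13, leB a a = true := by decide +kernel
lemma leB_trans : ∀ a b c : Fin 13, leB a b = true → leB b c = true → leB a c = true := by
  decide +kernel
lemma leB_antisymm : ∀ a b : Fin 13, leB a b = true → leB b a = true → a = b := by
  decide +kernel

instance : PartialOrder HC where
  le a b := leB (a.idx : ℕ) (b.idx : ℕ) = true
  le_refl a := leB_refl a.idx
  le_trans a b c := leB_trans a.idx b.idx c.idx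
  le_antisymm a b h1 h2 := HC.ext (leB_antisymm a.idx b.idx h1 h2)

/-! ### The fixed point property by exhaustive search -/

def step (x y z d : ℕ) : ℕ :=
  if leB z x then (if leB x z then d &&& upm.getD y 0 else d) &&& dnm.getD y 0
  else (if leB x z then d &&& upm.getD y 0 else d)

def restrictAux (x y : ℕ) : ℕ → List ℕ → List ℕ
  | _, [] => []
  | z, d :: ds => step x y z d :: restrictAux x y (z + 1) ds

/-- `refute xs doms = true` means that no solution takes values in the domains `doms`. -/
def refute : List ℕ → List ℕ → Bool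
  | [], _ => false
  | x :: xs, doms => (List.range 13).all fun y =>
      !(Nat.testBit (doms.getD x 0) y) ||
        ((restrictAux x y 0 doms).any (fun d => d == 0) || refute xs (restrictAux x y 0 doms))

lemma length_restrictAux (x y : ℕ) (ds : List ℕ) :
    ∀ s, (restrictAux x y s ds).length = ds.length := by
  induction ds with
  | nil => intro s; rfl
  | cons d ds ih => intro s; simp [restrictAux, ih]

lemma getD_restrictAux (x y : ℕ) (ds : List ℕ) :
    ∀ s i, i < ds.length → (restrictAux x y s ds).getD i 0 = step x y (s + i) (ds.getD i 0) := by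
  induction ds with
  | nil => intro s i hi; simp at hi
  | cons d ds ih =>
    intro s i hi
    cases i with
    | zero => simp [restrictAux]
    | succ i =>
      simp only [List.length_cons, Nat.add_lt_add_iff_right] at hi
      have := ih (s + 1) i hi
      simp only [restrictAux, List.getD_cons_succ]
      rw [this]
      congr 1
      omega

lemma dnm_spec : ∀ a b : Fin 13, leB a b = true → Nat.testBit (dnm.getD (b : ℕ) 0) (a : ℕ) = true := by
  decide +kernel

lemma refute_sound (g : ℕ → ℕ) (hg : ∀ z, z < 13 → g z < 13)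
    (hmono : ∀ x z, x < 13 → z < 13 → leB x z = true → leB (g x) (g z) = true) :
    ∀ (xs : List ℕ), (∀ x ∈ xs, x < 13) → ∀ (doms : List ℕ), doms.length = 13 →
      (∀ z, z < 13 → Nat.testBit (doms.getD z 0) (g z) = true) → refute xs doms = false := by
  intro xs
  induction xs with
  | nil => intro _ doms _ _; rfl
  | cons x xs ih =>
    intro hxs doms hlen hdom
    have hx : x < 13 := hxs x (by simp)
    have hdom' : ∀ z, z < 13 →
        Nat.testBit ((restrictAux x (g x) 0 doms).getD z 0) (g z) = true := by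
      intro z hz
      rw [getD_restrictAux x (g x) doms 0 z (by omega), Nat.zero_add]
      have h1 := hdom z hz
      unfold step
      have hup : leB x z = true → Nat.testBit (upm.getD (g x) 0) (g z) = true :=
        fun h => hmono x z hx hz h
      have hdn : leB z x = true → Nat.testBit (dnm.getD (g x) 0) (g z) = true := fun h =>
        dnm_spec ⟨g z, hg z hz⟩ ⟨g x, hg x hx⟩ (hmono z x hz hx h)
      split_ifs with h2 h3 h3
      · rw [Nat.testBit_and, Nat.testBit_and, h1, hup h3, hdn h2]; rfl
      · rw [Nat.testBit_and, h1, hdn h2]; rfl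
      · rw [Nat.testBit_and, h1, hup h3]; rfl
      · exact h1
    have hlen' : (restrictAux x (g x) 0 doms).length = 13 := by
      rw [length_restrictAux, hlen]
    have hrec := ih (fun y hy => hxs y (by simp [hy])) _ hlen' hdom'
    rw [refute, List.all_eq_false]
    refine ⟨g x, by simpa using hg x hx, ?_⟩
    have hany : (restrictAux x (g x) 0 doms).any (fun d => d == 0) = false := by
      rw [List.any_eq_false]
      intro d hd h0
      rw [beq_iff_eq] at h0
      obtain ⟨i, hi, hid⟩ := List.getElem_of_mem hd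
      have h2 := hdom' i (by omega)
      rw [List.getD_eq_getElem _ _ hi, hid, h0, Nat.zero_testBit] at h2
      exact absurd h2 (by decide)
    rw [hdom x hx, hany, hrec]
    decide

def searchOrder : List ℕ := [11, 1, 12, 2, 10, 0, 3, 5, 8, 6, 7, 9, 4]

/-- All values except the point itself are allowed. -/
def initialDomains : List ℕ :=
  [8190, 8189, 8187, 8183, 8175, 8159, 8127, 8063, 7935, 7679, 7167, 6143, 4095]

lemma refute_search : refute searchOrder initialDomains = true := by decide +kernel

lemma initialDomains_spec : ∀ z y : Fin 13, y ≠ z →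
    Nat.testBit (initialDomains.getD (z : ℕ) 0) (y : ℕ) = true := by decide +kernel

/-- The fixed point property of the 13-element ordered set. -/
lemma fpp (f : HC → HC) (hf : Monotone f) : ∃ x, f x = x := by
  by_contra hcon
  push Not at hcon
  let g : ℕ → ℕ := fun z => if h : z < 13 then ((f ⟨⟨z, h⟩⟩).idx : ℕ) else 0
  have hgval : ∀ z (h : z < 13), g z = ((f ⟨⟨z, h⟩⟩).idx : ℕ) := by
    intro z h
    simp only [g, dif_pos h]
  have hg : ∀ z, z < 13 → g z < 13 := by
    intro z h
    rw [hgval z h]
    exact (f ⟨⟨z, h⟩⟩).idx.isLt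
  have hmono : ∀ x z, x < 13 → z < 13 → leB x z = true → leB (g x) (g z) = true := by
    intro x z hx hz h
    rw [hgval x hx, hgval z hz]
    have h1 : (⟨⟨x, hx⟩⟩ : HC) ≤ ⟨⟨z, hz⟩⟩ := h
    exact hf h1
  have hdom : ∀ z, z < 13 → Nat.testBit (initialDomains.getD z 0) (g z) = true := by
    intro z hz
    rw [hgval z hz]
    exact initialDomains_spec ⟨z, hz⟩ (f ⟨⟨z, hz⟩⟩).idx
      (fun h => hcon ⟨⟨z, hz⟩⟩ (HC.ext h))
  have := refute_sound g hg hmono searchOrder (by decide) initialDomains rfl hdom
  rw [refute_search] at this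
  exact absurd this (by decide)

/-! ### The comparability graph carries a nontrivial cocycle -/

def cB (a b : Fin 13) : ZMod 2 := if Nat.testBit (cm.getD (a : ℕ) 0) (b : ℕ) then 1 else 0

lemma cB_cocycle : ∀ x y z : Fin 13, (leB x y = true ∨ leB y x = true) →
    (leB y z = true ∨ leB z y = true) → (leB x z = true ∨ leB z x = true) →
    cB x y + cB y z = cB x z := by decide +kernel

lemma adj_or_eq {x y : HC} (h : x = y ∨ (comparabilityGraph HC).Adj x y) :
    leB (x.idx : ℕ) (y.idx : ℕ) = true ∨ leB (y.idx : ℕ) (x.idx : ℕ) = true := by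
  rcases h with rfl | h
  · exact Or.inl (leB_refl x.idx)
  · exact h.2

lemma adj_of_leB {a b : Fin 13} (hab : a ≠ b) (h : leB a b = true) :
    (comparabilityGraph HC).Adj ⟨a⟩ ⟨b⟩ :=
  ⟨fun h' => hab (congrArg HC.idx h'), Or.inl h⟩

lemma twisted_HC : Twisted (comparabilityGraph HC) := by
  refine ⟨fun a b => cB a.idx b.idx, ?_, ?_⟩
  · intro x y z hxy hyz hxz
    exact cB_cocycle x.idx y.idx z.idx (adj_or_eq hxy) (adj_or_eq hyz) (adj_or_eq hxz)
  · rintro ⟨g, hg⟩
    have h1 := hg ⟨0⟩ ⟨12⟩ (adj_of_leB (by decide) (by decide +kernel))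
    have h2 := hg ⟨12⟩ ⟨1⟩ (adj_of_leB (by decide) (by decide +kernel)).symm
    have h3 := hg ⟨1⟩ ⟨4⟩ (adj_of_leB (by decide) (by decide +kernel))
    have h4 := hg ⟨4⟩ ⟨0⟩ (adj_of_leB (by decide) (by decide +kernel)).symm
    simp only at h1 h2 h3 h4
    have h5 : cB 0 12 + cB 12 1 + cB 1 4 + cB 4 0 = 1 := by decide +kernel
    have h6 : cB 0 12 + cB 12 1 + cB 1 4 + cB 4 0 = 0 := by
      linear_combination h1 + h2 + h3 + h4
    rw [h5] at h6
    exact absurd h6 (by decide)

/-- **Main result** (the negated form of Q1).  There is a finite nonempty ordered set `P` with the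
fixed point property such that `K^n(G(P))` has at least two vertices for every `n ≥ 0`. -/
theorem result :
    ∃ (P : Type) (_ : Fintype P) (_ : Nonempty P) (_ : PartialOrder P),
      (∀ f : P → P, Monotone f → ∃ x, f x = x) ∧
      ∀ n : ℕ, 2 ≤ Nat.card (iterCliqueGraph ⟨P, comparabilityGraph P⟩ n).1 := by
  refine ⟨HC, inferInstance, inferInstance, inferInstance, fpp, fun n => ?_⟩
  obtain ⟨h1, h2⟩ := iter_twisted ⟨HC, comparabilityGraph HC⟩
    (Finite.of_fintype HC) twisted_HC n
  exact h2.two_le

end Pool.Agent.Results.MP_c7efa6_co.NoCollapse
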